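import Pool.Agent.R360.NP.Gram

set_option autoImplicit false

open Matrix

namespace Pool.Agent.R360.NP

/-- If `A = P + 1 - M` with Gram kernels `P`, `M` and `M` of size `r`, then at most `r` eigenvalues
of `A` are `≤ 0`. -/
lemma inertia {n p r : ℕ} (A : Matrix (Fin n) (Fin n) ℝ) (hA : A.IsHermitian)
    (P M : Fin n → Fin n → ℝ) (hP : Gr p P) (hM : Gr r M)
    (h : ∀ x y, A x y = P x y + dl x y - M x y) :
    (Finset.univ.filter (fun i => hA.eigenvalues i ≤ 0)).card ≤ r := by
  classical
  obtain ⟨κ, _, ν, hc, hM⟩ := hM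
  obtain ⟨ι, _, φ, _, hP⟩ := hP
  by_contra hlt
  push Not at hlt
  let S := {i : Fin n // hA.eigenvalues i ≤ 0}
  have hS : Fintype.card S = (Finset.univ.filter (fun i => hA.eigenvalues i ≤ 0)).card :=
    Fintype.card_subtype _
  let w : Fin n → Fin n → ℝ := fun i => (hA.eigenvectorBasis i).ofLp
  have hw : ∀ i j, w i ⬝ᵥ w j = if i = j then (1:ℝ) else 0 := by
    intro i j
    have := (orthonormal_iff_ite.1 hA.eigenvectorBasis.orthonormal) j i
    rw [EuclideanSpace.inner_eq_star_dotProduct] at this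
    have e : star (hA.eigenvectorBasis j).ofLp = (hA.eigenvectorBasis j).ofLp := by
      funext x; simp
    rw [e] at this
    rw [show w i ⬝ᵥ w j = (hA.eigenvectorBasis i).ofLp ⬝ᵥ (hA.eigenvectorBasis j).ofLp from rfl,
      this]
    simp [eq_comm]
  have hAw : ∀ i, A *ᵥ w i = hA.eigenvalues i • w i := fun i => hA.mulVec_eigenvectorBasis i
  let L : (S → ℝ) →ₗ[ℝ] (Fin n → ℝ) := (Matrix.of (fun x (i : S) => w i.1 x)).mulVecLin
  let T : (S → ℝ) →ₗ[ℝ] (κ → ℝ) := (Matrix.of ν).mulVecLin ∘ₗ L
  have hker : LinearMap.ker T ≠ ⊥ := by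
    apply LinearMap.ker_ne_bot_of_finrank_lt
    rw [Module.finrank_fintype_fun_eq_card, Module.finrank_fintype_fun_eq_card, hS]
    omega
  obtain ⟨c, hcT, hc0⟩ := (Submodule.ne_bot_iff _).1 hker
  have hTc : ∀ j, ∑ x, ν j x * L c x = 0 := by
    intro j
    have := congrFun (LinearMap.mem_ker.1 hcT) j
    exact this
  have hL : L c = ∑ i : S, c i • w i.1 := by
    funext x
    simp only [L, Matrix.mulVecLin_apply, Matrix.mulVec, dotProduct, Matrix.of_apply,
      Finset.sum_apply, Pi.smul_apply, smul_eq_mul]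
    exact Finset.sum_congr rfl fun i _ => mul_comm _ _
  have hAL : A *ᵥ L c = ∑ i : S, (c i * hA.eigenvalues i.1) • w i.1 := by
    rw [hL]
    have := map_sum A.mulVecLin (fun i : S => c i • w i.1) Finset.univ
    simp only [Matrix.mulVecLin_apply] at this
    rw [this]
    refine Finset.sum_congr rfl fun i _ => ?_
    rw [Matrix.mulVec_smul, hAw, smul_smul]
  have hdot : ∀ d : S → ℝ, (L c) ⬝ᵥ (∑ i : S, d i • w i.1) = ∑ i : S, c i * d i := by
    intro d
    rw [hL, sum_dotProduct]
    refine Finset.sum_congr rfl fun i _ => ?_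
    rw [smul_dotProduct, dotProduct_sum]
    simp only [dotProduct_smul, hw, smul_eq_mul]
    rw [Finset.sum_eq_single i]
    · simp
    · intro b _ hb
      rw [if_neg (fun e => hb (Subtype.ext e.symm))]; ring
    · intro hi; exact absurd (Finset.mem_univ _) hi
  have h1 : (L c) ⬝ᵥ (L c) = ∑ i : S, c i * c i := by
    conv_lhs => rhs; rw [hL]
    exact hdot c
  have h2 : (L c) ⬝ᵥ (A *ᵥ L c) ≤ 0 := by
    rw [hAL, hdot]
    refine Finset.sum_nonpos fun i _ => ?_
    have := i.2
    nlinarith [mul_self_nonneg (c i)]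
  have h3 : (L c) ⬝ᵥ (A *ᵥ L c) = (∑ j, (∑ x, φ j x * L c x) ^ 2) + (L c) ⬝ᵥ (L c) -
      ∑ j, (∑ x, ν j x * L c x) ^ 2 := by
    generalize L c = z
    have g : ∀ (α : Type) [Fintype α] (ψ : α → Fin n → ℝ),
        ∑ x, ∑ y, z x * (∑ j, ψ j x * ψ j y) * z y = ∑ j, (∑ x, ψ j x * z x) ^ 2 := by
      intro α _ ψ
      have : ∀ j, (∑ x, ψ j x * z x) ^ 2 = ∑ x, ∑ y, z x * (ψ j x * ψ j y) * z y := by
        intro j
        rw [sq, Finset.sum_mul_sum]
        refine Finset.sum_congr rfl fun x _ => Finset.sum_congr rfl fun y _ => ?_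
        ring
      simp_rw [this]
      symm
      rw [Finset.sum_comm]
      refine Finset.sum_congr rfl fun x _ => ?_
      rw [Finset.sum_comm]
      refine Finset.sum_congr rfl fun y _ => ?_
      rw [Finset.mul_sum, Finset.sum_mul]
    have hd : ∑ x, ∑ y, z x * dl x y * z y = z ⬝ᵥ z := by
      unfold dotProduct
      refine Finset.sum_congr rfl fun x _ => ?_
      rw [Finset.sum_eq_single x]
      · rw [dl_eq rfl]; ring
      · intro y _ hy
        rw [dl_ne (Ne.symm hy)]; ring
      · intro hx; exact absurd (Finset.mem_univ _) hx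
    rw [← g ι φ, ← g κ ν, ← hd, ← Finset.sum_add_distrib, ← Finset.sum_sub_distrib]
    simp only [dotProduct, Matrix.mulVec]
    refine Finset.sum_congr rfl fun x _ => ?_
    rw [Finset.mul_sum, ← Finset.sum_add_distrib, ← Finset.sum_sub_distrib]
    refine Finset.sum_congr rfl fun y _ => ?_
    rw [h, hP, hM]
    ring
  have h4 : ∑ j, (∑ x, ν j x * L c x) ^ 2 = 0 := by
    refine Finset.sum_eq_zero fun j _ => ?_
    rw [hTc j]; norm_num
  have h5 : 0 ≤ ∑ j, (∑ x, φ j x * L c x) ^ 2 := Finset.sum_nonneg fun j _ => sq_nonneg _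
  have h6 : ∑ i : S, c i * c i ≤ 0 := by rw [← h1]; linarith
  apply hc0
  funext i
  have h7 : ∀ i ∈ (Finset.univ : Finset S), 0 ≤ c i * c i := fun i _ => mul_self_nonneg _
  have h8 := (Finset.sum_eq_zero_iff_of_nonneg h7).1 (le_antisymm h6 (Finset.sum_nonneg h7)) i
    (Finset.mem_univ _)
  simpa using h8

open Classical in
/-- the number of positive eigenvalues of the adjacency matrix, with multiplicity -/
noncomputable def npos {n : ℕ} (G : SimpleGraph (Fin n)) : ℕ :=
  (G.adjMatrix ℝ).charpoly.roots.countP (fun t => 0 < t)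

open Classical in
/-- the number of negative eigenvalues of the adjacency matrix, with multiplicity -/
noncomputable def nneg {n : ℕ} (G : SimpleGraph (Fin n)) : ℕ :=
  (G.adjMatrix ℝ).charpoly.roots.countP (fun t => t < 0)

open Classical in
lemma npos_eq {n : ℕ} (G : SimpleGraph (Fin n)) (hA : (G.adjMatrix ℝ).IsHermitian) :
    npos G = (Finset.univ.filter (fun i => 0 < hA.eigenvalues i)).card := by
  unfold npos
  rw [hA.roots_charpoly_eq_eigenvalues, Multiset.countP_map, Finset.card_def, Finset.filter_val]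
  rfl

open Classical in
lemma nneg_eq {n : ℕ} (G : SimpleGraph (Fin n)) (hA : (G.adjMatrix ℝ).IsHermitian) :
    nneg G = (Finset.univ.filter (fun i => hA.eigenvalues i < 0)).card := by
  unfold nneg
  rw [hA.roots_charpoly_eq_eigenvalues, Multiset.countP_map, Finset.card_def, Finset.filter_val]
  rfl

open Classical in
/-- a graph without negative eigenvalues has no positive ones -/
lemma npos_zero {n : ℕ} (G : SimpleGraph (Fin n)) (h : nneg G = 0) : npos G = 0 := by
  have hA : (G.adjMatrix ℝ).IsHermitian := G.isHermitian_adjMatrix ℝ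
  rw [nneg_eq G hA, Finset.card_eq_zero] at h
  rw [npos_eq G hA, Finset.card_eq_zero]
  have h1 : ∀ i, 0 ≤ hA.eigenvalues i := by
    intro i
    by_contra hi
    push Not at hi
    have : i ∈ Finset.univ.filter (fun i => hA.eigenvalues i < 0) := by simp [hi]
    rw [h] at this
    simp at this
  have h2 : ∑ i, hA.eigenvalues i = 0 := by
    have := hA.trace_eq_sum_eigenvalues
    rw [SimpleGraph.trace_adjMatrix] at this
    simpa using this.symm
  have h3 := (Finset.sum_eq_zero_iff_of_nonneg (fun i _ => h1 i)).1 h2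
  ext i
  simp [h3 i (Finset.mem_univ _)]

end Pool.Agent.R360.NP
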