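import Pool.Agent.R360.NP.Step
import Pool.Agent.R360.NP.Inertia

set_option autoImplicit false

namespace Pool.Agent.R360.NP

/-- the sequence `(1, 2), (3, 7), (10, 24), ...` -/
lemma family (j : ℕ) : ∃ a K : ℕ, Cls a K ∧ a ≤ K ∧ 3 ^ j ≤ a ∧ 2 * a ≤ K ∧
    K ^ 2 + 2 ^ j = 2 * a * K + a ^ 2 := by
  induction j with
  | zero => exact ⟨1, 2, cls_base, by norm_num, by norm_num, by norm_num, by norm_num⟩
  | succ j ih =>
    obtain ⟨a, K, h1, h2, h3, h4, h5⟩ := ih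
    refine ⟨K + a, 3 * K + a, cls_step h2 h1, by omega, ?_, by omega, ?_⟩
    · rw [pow_succ]; omega
    · have : (2:ℕ) ^ (j + 1) = 2 * 2 ^ j := by rw [pow_succ]; ring
      rw [this]
      nlinarith [h5]

/-- for every `t < 1 + √2` there is a class with `K > t a` -/
lemma exists_cls (t : ℝ) (ht1 : 1 ≤ t) (ht : t < 1 + Real.sqrt 2) :
    ∃ a K : ℕ, Cls a K ∧ 1 ≤ a ∧ t * a < K := by
  set κ : ℝ := 2 - (t - 1) ^ 2 with hκ
  have hκ0 : 0 < κ := by
    have h1 : (t - 1) ^ 2 < 2 := by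
      have := Real.sq_sqrt (show (0:ℝ) ≤ 2 by norm_num)
      nlinarith [Real.sqrt_nonneg 2]
    linarith
  obtain ⟨j, hj⟩ := exists_pow_lt_of_lt_one hκ0 (show (2/9 : ℝ) < 1 by norm_num)
  obtain ⟨a, K, h1, h2, h3, h4, h5⟩ := family j
  have ha1 : 1 ≤ a := le_trans (Nat.one_le_pow _ _ (by norm_num)) h3
  refine ⟨a, K, h1, ha1, ?_⟩
  by_contra hcon
  push Not at hcon
  have h5' : (K:ℝ) ^ 2 + 2 ^ j = 2 * a * K + a ^ 2 := by exact_mod_cast h5
  have h2' : (a:ℝ) ≤ K := by exact_mod_cast h2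
  have h3' : (3:ℝ) ^ j ≤ a := by exact_mod_cast h3
  have h6 : κ * (a:ℝ) ^ 2 ≤ 2 ^ j := by
    have : ((K:ℝ) - a) ^ 2 ≤ ((t - 1) * a) ^ 2 := by
      apply pow_le_pow_left₀ (by linarith)
      linarith
    rw [hκ]
    nlinarith
  have h7 : (9:ℝ) ^ j ≤ (a:ℝ) ^ 2 := by
    calc (9:ℝ) ^ j = ((3:ℝ) ^ j) ^ 2 := by rw [← pow_mul, mul_comm, pow_mul]; norm_num
      _ ≤ (a:ℝ) ^ 2 := pow_le_pow_left₀ (by positivity) h3' 2
  have h8 : (2/9 : ℝ) ^ j * 9 ^ j = 2 ^ j := by rw [← mul_pow]; norm_num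
  have h9 : (0:ℝ) < 9 ^ j := by positivity
  nlinarith

open Classical in
/-- graphs from classes -/
lemma graph_of_cls {a K : ℕ} (h : Cls a K) : ∃ C : ℕ, ∀ N : ℕ, 1 ≤ N →
    ∃ G : SimpleGraph (Fin (N ^ K)), nneg G ≤ C * N ^ a ∧ N ^ K ≤ npos G + C * N ^ a := by
  obtain ⟨C, hC⟩ := h
  refine ⟨C, fun N hN => ?_⟩
  obtain ⟨V, iV, q, P, M, hcard, h01, hdiag, hP, hM, hq⟩ := hC N hN
  let e : Fin (N ^ K) ≃ V := (Fintype.equivFinOfCardEq hcard).symm
  have hPsymm : ∀ {r : ℕ} {X : V → V → ℝ}, Gr r X → ∀ x y, X x y = X y x := by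
    intro r X hX x y
    obtain ⟨κ, _, ν, _, hν⟩ := hX
    rw [hν, hν]
    exact Finset.sum_congr rfl fun j _ => mul_comm _ _
  have hdlsymm : ∀ x y : V, dl x y = dl y x := by
    intro x y
    by_cases hxy : x = y
    · rw [hxy]
    · rw [dl_ne hxy, dl_ne (Ne.symm hxy)]
  have hqsymm : ∀ x y, q x y = q y x := by
    intro x y
    rw [hq, hq, hPsymm hP x y, hPsymm hM x y, hdlsymm x y]
  let G : SimpleGraph (Fin (N ^ K)) :=
    { Adj := fun x y => q (e x) (e y) = 1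
      symm := ⟨fun x y hxy => by
        show q (e y) (e x) = 1
        rw [hqsymm]; exact hxy⟩
      loopless := ⟨fun x hx => by
        have h0 : q (e x) (e x) = 1 := hx
        rw [hdiag] at h0; norm_num at h0⟩ }
  have hA : (G.adjMatrix ℝ).IsHermitian := G.isHermitian_adjMatrix ℝ
  have hent : ∀ x y, G.adjMatrix ℝ x y = P (e x) (e y) + dl x y - M (e x) (e y) := by
    intro x y
    have hd : dl x y = dl (e x) (e y) := by
      by_cases hxy : x = y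
      · rw [hxy, dl_eq rfl, dl_eq rfl]
      · rw [dl_ne hxy, dl_ne (fun hc => hxy (e.injective hc))]
    rw [hd, ← hq, SimpleGraph.adjMatrix_apply]
    by_cases hadj : q (e x) (e y) = 1
    · rw [if_pos hadj, hadj]
    · rw [if_neg hadj]
      rcases h01 (e x) (e y) with h0 | h0
      · exact h0.symm
      · exact absurd h0 hadj
  have hin := inertia (G.adjMatrix ℝ) hA _ _ (hP.comp e) (hM.comp e) hent
  refine ⟨G, ?_, ?_⟩
  · rw [nneg_eq G hA]
    refine le_trans (Finset.card_le_card ?_) hin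
    intro i hi
    rw [Finset.mem_filter] at hi ⊢
    exact ⟨hi.1, hi.2.le⟩
  · rw [npos_eq G hA]
    have hsum : (Finset.univ.filter (fun i => 0 < hA.eigenvalues i)).card +
        (Finset.univ.filter (fun i => hA.eigenvalues i ≤ 0)).card = N ^ K := by
      have := Finset.card_filter_add_card_filter_not (s := (Finset.univ : Finset (Fin (N ^ K))))
        (fun i => 0 < hA.eigenvalues i)
      simp only [not_lt] at this
      rw [this, Finset.card_univ, Fintype.card_fin]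
    omega

/-- **Growth exponent**: for every `e < 1 + √2` the positive inertia is not `O((n⁻)^e)`. -/
theorem exponent (e : ℝ) (he : e < 1 + Real.sqrt 2) (C : ℝ) :
    ∃ (n : ℕ) (G : SimpleGraph (Fin n)), C * (nneg G : ℝ) ^ e < npos G := by
  have hs : (0:ℝ) ≤ Real.sqrt 2 := Real.sqrt_nonneg 2
  have hs2 : (1:ℝ) < Real.sqrt 2 := by
    rw [show (1:ℝ) = Real.sqrt 1 by simp]
    exact Real.sqrt_lt_sqrt (by norm_num) (by norm_num)
  set t : ℝ := max e 1 with ht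
  have ht1 : 1 ≤ t := le_max_right _ _
  have hte : e ≤ t := le_max_left _ _
  have ht2 : t < 1 + Real.sqrt 2 := max_lt he (by linarith)
  obtain ⟨a, K, hcls, ha1, hK⟩ := exists_cls t ht1 ht2
  obtain ⟨D, hD⟩ := graph_of_cls hcls
  -- the constant
  set B : ℝ := (1 + |C|) * ((D:ℝ) + 1) ^ t with hB
  have hB0 : 0 < B := by
    have : (0:ℝ) < ((D:ℝ) + 1) ^ t := by positivity
    have := abs_nonneg C
    positivity
  have hexp : 0 < (K:ℝ) - t * a := by linarith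
  obtain ⟨N, hN1, hN⟩ : ∃ N : ℕ, 1 ≤ N ∧ B < (N:ℝ) ^ ((K:ℝ) - t * a) := by
    have h1 := (tendsto_rpow_atTop hexp).comp tendsto_natCast_atTop_atTop (α := ℕ)
    have h2 := (h1.eventually_gt_atTop B).and (Filter.eventually_ge_atTop 1)
    obtain ⟨N, hN⟩ := h2.exists
    exact ⟨N, hN.2, hN.1⟩
  obtain ⟨G, hG1, hG2⟩ := hD N hN1
  refine ⟨N ^ K, G, ?_⟩
  have hNpos : (0:ℝ) < N := by exact_mod_cast hN1
  -- `r = (D+1) N^a`
  set r : ℝ := ((D:ℝ) + 1) * (N:ℝ) ^ a with hr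
  have hNa : (1:ℝ) ≤ (N:ℝ) ^ a := one_le_pow₀ (by exact_mod_cast hN1)
  have hD0 : (0:ℝ) ≤ D := Nat.cast_nonneg _
  have hr1 : 1 ≤ r := by rw [hr]; nlinarith
  have hx : (nneg G : ℝ) ≤ r := by
    have : (nneg G : ℝ) ≤ D * (N:ℝ) ^ a := by exact_mod_cast hG1
    rw [hr]; nlinarith
  have hrt : r ≤ r ^ t := by
    calc r = r ^ (1:ℝ) := (Real.rpow_one r).symm
      _ ≤ r ^ t := Real.rpow_le_rpow_of_exponent_le hr1 ht1
  have hxe : (nneg G : ℝ) ^ e ≤ r ^ t := by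
    rcases Nat.eq_zero_or_pos (nneg G) with h0 | h0
    · rw [h0, Nat.cast_zero]
      refine le_trans (b := 1) ?_ (Real.one_le_rpow hr1 (by linarith))
      by_cases he0 : e = 0
      · rw [he0, Real.rpow_zero]
      · rw [Real.zero_rpow he0]; norm_num
    · have h1 : (1:ℝ) ≤ nneg G := by exact_mod_cast h0
      calc (nneg G : ℝ) ^ e ≤ (nneg G : ℝ) ^ t := Real.rpow_le_rpow_of_exponent_le h1 hte
        _ ≤ r ^ t := Real.rpow_le_rpow (by linarith) hx (by linarith)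
  have hrtE : r ^ t = ((D:ℝ) + 1) ^ t * (N:ℝ) ^ (t * a) := by
    rw [hr, Real.mul_rpow (by positivity) (by positivity), ← Real.rpow_natCast, ← Real.rpow_mul
      hNpos.le, mul_comm (a:ℝ) t]
  have hmain : (1 + |C|) * r ^ t < (N:ℝ) ^ K := by
    have h1 : (N:ℝ) ^ K = (N:ℝ) ^ ((K:ℝ) - t * a) * (N:ℝ) ^ (t * a) := by
      rw [← Real.rpow_add hNpos, ← Real.rpow_natCast]; congr 1; ring
    rw [h1, hrtE]
    have h2 : (0:ℝ) < (N:ℝ) ^ (t * a) := Real.rpow_pos_of_pos hNpos _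
    calc (1 + |C|) * (((D:ℝ) + 1) ^ t * (N:ℝ) ^ (t * a)) = B * (N:ℝ) ^ (t * a) := by rw [hB]; ring
      _ < _ := by gcongr
  have hpos : (N:ℝ) ^ K ≤ npos G + r := by
    have : (N:ℝ) ^ K ≤ npos G + D * (N:ℝ) ^ a := by exact_mod_cast hG2
    rw [hr]; nlinarith
  have hCx : C * (nneg G : ℝ) ^ e ≤ |C| * r ^ t := by
    have h0 : 0 ≤ (nneg G : ℝ) ^ e := Real.rpow_nonneg (Nat.cast_nonneg _) _
    calc C * (nneg G : ℝ) ^ e ≤ |C| * (nneg G : ℝ) ^ e := by gcongr; exact le_abs_self C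
      _ ≤ |C| * r ^ t := by gcongr
  nlinarith

/-- no polynomial of degree at most two bounds the positive inertia by the negative one -/
theorem quadratic (f : Polynomial ℝ) (hf : f.natDegree ≤ 2) :
    ∃ (n : ℕ) (G : SimpleGraph (Fin n)), f.eval (nneg G : ℝ) < npos G := by
  have hs2 : (1.4:ℝ) < Real.sqrt 2 := by
    rw [show (1.4:ℝ) = Real.sqrt (1.4 ^ 2) by rw [Real.sqrt_sq]; norm_num]
    exact Real.sqrt_lt_sqrt (by norm_num) (by norm_num)
  obtain ⟨n, G, hG⟩ := exponent 2 (by linarith) (|f.coeff 0| + |f.coeff 1| + |f.coeff 2|)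
  refine ⟨n, G, ?_⟩
  have h1 : 1 ≤ nneg G := by
    by_contra h0
    have h0' : nneg G = 0 := by omega
    rw [h0', npos_zero G h0'] at hG
    simp at hG
  have hx : (1:ℝ) ≤ nneg G := by exact_mod_cast h1
  refine lt_of_le_of_lt ?_ hG
  rw [Polynomial.eval_eq_sum_range' (n := 3) (by omega)]
  rw [Finset.sum_range_succ, Finset.sum_range_succ, Finset.sum_range_one]
  have e2 : (nneg G : ℝ) ^ (2:ℝ) = (nneg G : ℝ) ^ (2:ℕ) := by norm_cast
  rw [e2]
  have c0 := le_abs_self (f.coeff 0)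
  have c1 := le_abs_self (f.coeff 1)
  have c2 := le_abs_self (f.coeff 2)
  have d0 := abs_nonneg (f.coeff 0)
  have d1 := abs_nonneg (f.coeff 1)
  have d2 := abs_nonneg (f.coeff 2)
  have q1 : (nneg G : ℝ) ≤ (nneg G : ℝ) ^ 2 := by nlinarith
  have q0 : (1:ℝ) ≤ (nneg G : ℝ) ^ 2 := by nlinarith
  rw [pow_zero, pow_one]
  have r0 : f.coeff 0 * 1 ≤ |f.coeff 0| * (nneg G : ℝ) ^ 2 := by nlinarith
  have r1 : f.coeff 1 * (nneg G : ℝ) ≤ |f.coeff 1| * (nneg G : ℝ) ^ 2 := by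
    calc f.coeff 1 * (nneg G : ℝ) ≤ |f.coeff 1| * (nneg G : ℝ) := by gcongr
      _ ≤ |f.coeff 1| * (nneg G : ℝ) ^ 2 := by gcongr
  have r2 : f.coeff 2 * (nneg G : ℝ) ^ 2 ≤ |f.coeff 2| * (nneg G : ℝ) ^ 2 := by gcongr
  linarith

end Pool.Agent.R360.NP
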