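import Mathlib

/-!
# Gram representations with few coordinates

`Gr r M`: the kernel `M` on `V` is `M x y = ∑ j, ν j x * ν j y` with at most `r` coordinates `j`.
`Cls a K`: for every `N ≥ 1` there is a graph kernel `q` on `N ^ K` points which is
`P + identity - M` with `P`, `M` Gram kernels and `M` of size `≤ C N ^ a`.
-/

set_option autoImplicit false

namespace Pool.Agent.R360.NP

/-- `M x y = ∑ j, ν j x * ν j y` with at most `r` coordinates -/
def Gr {V : Type} (r : ℕ) (M : V → V → ℝ) : Prop :=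
  ∃ (κ : Type) (_ : Fintype κ) (ν : κ → V → ℝ), Fintype.card κ ≤ r ∧
    ∀ x y, M x y = ∑ j, ν j x * ν j y

variable {V W : Type}

lemma Gr.mono {r r' : ℕ} {M : V → V → ℝ} (h : Gr r M) (hr : r ≤ r') : Gr r' M := by
  obtain ⟨κ, i, ν, hc, hM⟩ := h
  exact ⟨κ, i, ν, hc.trans hr, hM⟩

lemma Gr.add {r r' : ℕ} {M M' : V → V → ℝ} (h : Gr r M) (h' : Gr r' M') :
    Gr (r + r') (fun x y => M x y + M' x y) := by
  obtain ⟨κ, i, ν, hc, hM⟩ := h
  obtain ⟨κ', i', ν', hc', hM'⟩ := h'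
  refine ⟨κ ⊕ κ', inferInstance, Sum.elim ν ν', ?_, ?_⟩
  · rw [Fintype.card_sum]; omega
  · intro x y
    beta_reduce
    rw [hM, hM', Fintype.sum_sum_type]
    rfl

lemma Gr.mul {r r' : ℕ} {M M' : V → V → ℝ} (h : Gr r M) (h' : Gr r' M') :
    Gr (r * r') (fun x y => M x y * M' x y) := by
  obtain ⟨κ, i, ν, hc, hM⟩ := h
  obtain ⟨κ', i', ν', hc', hM'⟩ := h'
  refine ⟨κ × κ', inferInstance, fun j x => ν j.1 x * ν' j.2 x, ?_, ?_⟩
  · rw [Fintype.card_prod]; exact Nat.mul_le_mul hc hc'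
  · intro x y
    beta_reduce
    rw [hM, hM', Finset.sum_mul_sum, Fintype.sum_prod_type]
    refine Finset.sum_congr rfl fun j _ => Finset.sum_congr rfl fun j' _ => ?_
    ring

lemma Gr.comp {r : ℕ} {M : V → V → ℝ} (h : Gr r M) (f : W → V) :
    Gr r (fun x y => M (f x) (f y)) := by
  obtain ⟨κ, i, ν, hc, hM⟩ := h
  exact ⟨κ, i, fun j x => ν j (f x), hc, fun x y => hM _ _⟩

lemma Gr.one : Gr 1 (fun _ _ : V => (1 : ℝ)) :=
  ⟨Unit, inferInstance, fun _ _ => 1, by simp, fun x y => by simp⟩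

open Classical in
/-- the identity kernel -/
noncomputable def dl (x y : V) : ℝ := if x = y then 1 else 0

lemma dl_eq {x y : V} (h : x = y) : dl x y = 1 := by simp [dl, h]
lemma dl_ne {x y : V} (h : x ≠ y) : dl x y = 0 := by simp [dl, h]

lemma Gr.delta [Fintype V] : Gr (Fintype.card V) (fun x y : V => dl x y) := by
  classical
  refine ⟨V, inferInstance, fun z x => if z = x then 1 else 0, le_rfl, fun x y => ?_⟩
  simp [dl, eq_comm]

/-- graph kernels with a small negative part -/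
def Cls (a K : ℕ) : Prop := ∃ C : ℕ, ∀ N : ℕ, 1 ≤ N →
  ∃ (V : Type) (_ : Fintype V) (q P M : V → V → ℝ), Fintype.card V = N ^ K ∧
    (∀ x y, q x y = 0 ∨ q x y = 1) ∧ (∀ x, q x x = 0) ∧
    Gr (C * N ^ K) P ∧ Gr (C * N ^ a) M ∧
    ∀ x y, q x y = P x y + dl x y - M x y

lemma cls_base : Cls 1 2 := by
  refine ⟨2, fun N hN => ?_⟩
  refine ⟨Fin N × Fin N, inferInstance,
    fun x y => (1 - dl x.1 y.1) * (1 - dl x.2 y.2),
    fun _ _ => 1,
    fun x y => dl x.1 y.1 + dl x.2 y.2,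
    ?_, ?_, ?_, ?_, ?_, ?_⟩
  · rw [Fintype.card_prod, Fintype.card_fin]; ring
  · intro x y
    by_cases h1 : x.1 = y.1 <;> by_cases h2 : x.2 = y.2 <;> simp [dl_eq, dl_ne, h1, h2]
  · intro x; simp [dl_eq]
  · refine Gr.one.mono ?_
    have := Nat.one_le_pow 2 N hN
    omega
  · have h1 := (Gr.delta (V := Fin N)).comp (fun x : Fin N × Fin N => x.1)
    have h2 := (Gr.delta (V := Fin N)).comp (fun x : Fin N × Fin N => x.2)
    refine (h1.add h2).mono ?_
    rw [Fintype.card_fin, pow_one]; omega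
  · intro x y
    by_cases h1 : x.1 = y.1 <;> by_cases h2 : x.2 = y.2 <;>
      simp [dl, h1, h2, Prod.ext_iff]

end Pool.Agent.R360.NP
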