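import Pool.Agent.R360.NP.Gram

set_option autoImplicit false

namespace Pool.Agent.R360.NP

lemma arith1 (C X Yn : ℕ) (hX1 : 1 ≤ X) (hY1 : 1 ≤ Yn) (hYX : Yn ≤ X) :
    1 + C * Yn + C * Yn + C * X * (C * X) + C * X * X + X * (C * X) + C * Yn * (C * Yn) +
      X * (C * X + X) + X * (C * X + X) ≤ (C + 2) * (C + 2) * 6 * (X * X * X * Yn) := by
  have k1 : 1 ≤ X * X * X * Yn := Nat.one_le_iff_ne_zero.2 (by positivity)
  have k2 : X * X ≤ X * X * X * Yn := by
    calc X * X = X * X * 1 * 1 := by ring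
      _ ≤ X * X * X * Yn := by gcongr
  have k3 : Yn ≤ X * X * X * Yn := by
    calc Yn = 1 * 1 * 1 * Yn := by ring
      _ ≤ X * X * X * Yn := by gcongr
  have k4 : Yn * Yn ≤ X * X * X * Yn := by
    calc Yn * Yn = Yn * 1 * 1 * Yn := by ring
      _ ≤ X * X * X * Yn := by gcongr
  generalize X * X * X * Yn = B at *
  nlinarith [Nat.mul_le_mul_left C k3, Nat.mul_le_mul_left (C * C) k2, Nat.mul_le_mul_left C k2,
    Nat.mul_le_mul_left (C * C) k4, Nat.mul_le_mul_left C k1, Nat.mul_le_mul_left (C * C) k1]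

lemma arith2 (C X Yn : ℕ) (hY1 : 1 ≤ Yn) :
    C * X + X + (C * X + X) + (C * X + X) * (C * Yn) + C * Yn * (C * X + X) + X * (C * Yn) +
      X * (C * Yn) + X * Yn ≤ (C + 2) * (C + 2) * 6 * (X * Yn) := by
  have k1 : X ≤ X * Yn := by
    calc X = X * 1 := by ring
      _ ≤ X * Yn := by gcongr
  nlinarith [Nat.mul_le_mul_left C k1]

/-- the recursion step -/
lemma cls_step {a K : ℕ} (haK : a ≤ K) (h : Cls a K) : Cls (K + a) (3 * K + a) := by
  obtain ⟨C, hC⟩ := h
  refine ⟨(C + 2) * (C + 2) * 6, fun N hN => ?_⟩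
  obtain ⟨V, iV, q, P, M, hcard, h01, hdiag, hP, hM, hq⟩ := hC N hN
  -- the new vertex set
  let Y : Type := Fin (N ^ a)
  let Z : Type := Fin (N ^ (K - a))
  let T : Type := (V × V) × (Y × Y × Z)
  let f1 : T → V := fun x => x.1.1
  let f2 : T → V := fun x => x.1.2
  let gu : T → Y := fun x => x.2.1
  let gv : T → Y := fun x => x.2.2.1
  let gw : T → Z := fun x => x.2.2.2
  have hX1 : 1 ≤ N ^ K := Nat.one_le_pow _ _ hN
  have hY1 : 1 ≤ N ^ a := Nat.one_le_pow _ _ hN
  have hZ1 : 1 ≤ N ^ (K - a) := Nat.one_le_pow _ _ hN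
  have hZY : N ^ (K - a) * N ^ a = N ^ K := by rw [← pow_add]; congr 1; omega
  have hYX : N ^ a ≤ N ^ K := Nat.pow_le_pow_right hN haK
  have e1 : N ^ (K + a) = N ^ K * N ^ a := pow_add _ _ _
  have e2 : N ^ (3 * K + a) = N ^ K * N ^ K * N ^ K * N ^ a := by
    rw [pow_add, show 3 * K = K + K + K by ring, pow_add, pow_add]
  refine ⟨T, inferInstance,
    fun x y => 1 - q (f1 x) (f1 y) - q (f2 x) (f2 y) + q (f1 x) (f1 y) * q (f2 x) (f2 y)
      + dl (gw x) (gw y) * (dl (gu x) (gu y) * q (f1 x) (f1 y) + dl (gv x) (gv y) * q (f2 x) (f2 y)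
        - dl (gu x) (gu y) * dl (gv x) (gv y))
      - dl (f1 x) (f1 y) * dl (f2 x) (f2 y)
        * (1 - dl (gu x) (gu y) * dl (gv x) (gv y) * dl (gw x) (gw y)),
    fun x y => 1 + M (f1 x) (f1 y) + M (f2 x) (f2 y) + P (f1 x) (f1 y) * P (f2 x) (f2 y)
      + P (f1 x) (f1 y) * dl (f2 x) (f2 y) + dl (f1 x) (f1 y) * P (f2 x) (f2 y)
      + M (f1 x) (f1 y) * M (f2 x) (f2 y)
      + dl (gw x) (gw y) * dl (gu x) (gu y) * (P (f1 x) (f1 y) + dl (f1 x) (f1 y))
      + dl (gw x) (gw y) * dl (gv x) (gv y) * (P (f2 x) (f2 y) + dl (f2 x) (f2 y)),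
    fun x y => (P (f1 x) (f1 y) + dl (f1 x) (f1 y)) + (P (f2 x) (f2 y) + dl (f2 x) (f2 y))
      + (P (f1 x) (f1 y) + dl (f1 x) (f1 y)) * M (f2 x) (f2 y)
      + M (f1 x) (f1 y) * (P (f2 x) (f2 y) + dl (f2 x) (f2 y))
      + dl (gw x) (gw y) * dl (gu x) (gu y) * M (f1 x) (f1 y)
      + dl (gw x) (gw y) * dl (gv x) (gv y) * M (f2 x) (f2 y)
      + dl (gw x) (gw y) * dl (gu x) (gu y) * dl (gv x) (gv y),
    ?_, ?_, ?_, ?_, ?_, ?_⟩
  · show Fintype.card ((V × V) × (Fin (N ^ a) × Fin (N ^ a) × Fin (N ^ (K - a)))) = _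
    simp only [Fintype.card_prod, Fintype.card_fin, hcard]
    rw [e2, ← hZY]; ring
  · intro x y
    beta_reduce
    have d01 : ∀ {A : Type} (s t : A), dl s t = 0 ∨ dl s t = 1 := by
      intro A s t
      by_cases hst : s = t
      · right; exact dl_eq hst
      · left; exact dl_ne hst
    have hq1 : dl (f1 x) (f1 y) = 1 → q (f1 x) (f1 y) = 0 := by
      intro hd
      by_cases hst : f1 x = f1 y
      · rw [hst]; exact hdiag _
      · rw [dl_ne hst] at hd; norm_num at hd
    have hq2 : dl (f2 x) (f2 y) = 1 → q (f2 x) (f2 y) = 0 := by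
      intro hd
      by_cases hst : f2 x = f2 y
      · rw [hst]; exact hdiag _
      · rw [dl_ne hst] at hd; norm_num at hd
    rcases h01 (f1 x) (f1 y) with a1 | a1 <;> rcases h01 (f2 x) (f2 y) with a2 | a2 <;>
    rcases d01 (f1 x) (f1 y) with b1 | b1 <;> rcases d01 (f2 x) (f2 y) with b2 | b2 <;>
    rcases d01 (gu x) (gu y) with c1 | c1 <;> rcases d01 (gv x) (gv y) with c2 | c2 <;>
    rcases d01 (gw x) (gw y) with c3 | c3 <;>
    simp only [a1, a2, b1, b2, c1, c2, c3] at hq1 hq2 ⊢ <;>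
    first
    | norm_num; done
    | (exfalso; norm_num at hq1; done)
    | (exfalso; norm_num at hq2; done)
  · intro x
    beta_reduce
    rw [hdiag, hdiag, dl_eq rfl, dl_eq rfl, dl_eq rfl, dl_eq rfl, dl_eq rfl]
    norm_num
  · have gM1 := hM.comp f1
    have gM2 := hM.comp f2
    have gP1 := hP.comp f1
    have gP2 := hP.comp f2
    have gd1 := (Gr.delta (V := V)).comp f1
    have gd2 := (Gr.delta (V := V)).comp f2
    have gu' := (Gr.delta (V := Y)).comp gu
    have gv' := (Gr.delta (V := Y)).comp gv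
    have gw' := (Gr.delta (V := Z)).comp gw
    have cY : Fintype.card Y = N ^ a := Fintype.card_fin _
    have cZ : Fintype.card Z = N ^ (K - a) := Fintype.card_fin _
    rw [hcard] at gd1 gd2
    rw [cY] at gu' gv'
    rw [cZ] at gw'
    refine (((((((((Gr.one (V := T)).add gM1).add gM2).add (gP1.mul gP2)).add
      (gP1.mul gd2)).add (gd1.mul gP2)).add (gM1.mul gM2)).add
      ((gw'.mul gu').mul (gP1.add gd1))).add ((gw'.mul gv').mul (gP2.add gd2))).mono ?_
    rw [hZY, e2]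
    exact arith1 C _ _ hX1 hY1 hYX
  · have gM1 := hM.comp f1
    have gM2 := hM.comp f2
    have gP1 := hP.comp f1
    have gP2 := hP.comp f2
    have gd1 := (Gr.delta (V := V)).comp f1
    have gd2 := (Gr.delta (V := V)).comp f2
    have gu' := (Gr.delta (V := Y)).comp gu
    have gv' := (Gr.delta (V := Y)).comp gv
    have gw' := (Gr.delta (V := Z)).comp gw
    have cY : Fintype.card Y = N ^ a := Fintype.card_fin _
    have cZ : Fintype.card Z = N ^ (K - a) := Fintype.card_fin _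
    rw [hcard] at gd1 gd2
    rw [cY] at gu' gv'
    rw [cZ] at gw'
    refine (((((((gP1.add gd1).add (gP2.add gd2)).add ((gP1.add gd1).mul gM2)).add
      (gM1.mul (gP2.add gd2))).add ((gw'.mul gu').mul gM1)).add ((gw'.mul gv').mul gM2)).add
      ((gw'.mul gu').mul gv')).mono ?_
    rw [hZY, e1]
    exact arith2 C _ _ hY1
  · intro x y
    beta_reduce
    rw [hq (f1 x) (f1 y), hq (f2 x) (f2 y)]
    have hT : dl x y = dl (f1 x) (f1 y) * dl (f2 x) (f2 y) * (dl (gu x) (gu y) * dl (gv x) (gv y) *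
        dl (gw x) (gw y)) := by
      by_cases hxy : x = y
      · subst hxy
        simp only [dl_eq rfl]; norm_num
      · rw [dl_ne hxy]
        symm
        by_contra hne
        apply hxy
        have t1 : f1 x = f1 y := by
          by_contra hc; rw [dl_ne hc] at hne; simp at hne
        have t2 : f2 x = f2 y := by
          by_contra hc; rw [dl_ne hc] at hne; simp at hne
        have t3 : gu x = gu y := by
          by_contra hc; rw [dl_ne hc] at hne; simp at hne
        have t4 : gv x = gv y := by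
          by_contra hc; rw [dl_ne hc] at hne; simp at hne
        have t5 : gw x = gw y := by
          by_contra hc; rw [dl_ne hc] at hne; simp at hne
        exact Prod.ext (Prod.ext t1 t2) (Prod.ext t3 (Prod.ext t4 t5))
    rw [hT]
    ring

end Pool.Agent.R360.NP
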